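import Pool.Agent.Y560.TF.GeS

/-!
Project TF (helper560), job TF-STAR: the separation relations of two points.
-/

set_option autoImplicit false

namespace Pool.Agent.Y664.TF

open Pool.Agent.Y560.TF.Ge

theorem star_aux {Γ X : Type} [Group Γ] [PartialOrder X] [MulAction Γ X] [Tr Γ X]
    {u s s' t : X} {γ δ γ' : Γ} (hs' : DD Γ u s') (h : SL Γ u (γ • s) (δ • s))
    (hq : ¬ δ • s ≤ t) (hp' : γ' • s' ≤ t) (hpp : γ • s ≤ γ' • s') (x : X) :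
    (IN Γ u s' x → IN Γ u s x) ∧ (IN Γ u s x → IN Γ u s' x) := by
  have hlt : γ' • s' < δ • s :=
    h.cmp_lt (DD.smul γ' hs') hpp fun h1 => hq (h1.trans hp')
  have h1 : SL Γ u (γ • s) (γ' • s') := h.mid hpp hlt.le
  have h2 : SL Γ u (γ' • s') (δ • s) := h1.symm.trans h
  constructor
  · rintro ⟨α, β, h3, h4, h5⟩
    rw [← IN_smul (γ := γ' * α⁻¹)]
    have e1 : (γ' * α⁻¹) • α • s' = γ' • s' := by rw [← mul_smul]; simp
    have h3' := h3.smul (γ' * α⁻¹)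
    have h4' := (sle (γ := γ' * α⁻¹)).2 h4
    have h5' : ¬ (γ' * α⁻¹) • β • s' ≤ (γ' * α⁻¹) • x := fun h6 => h5 (sle.1 h6)
    rw [e1] at h3' h4'
    by_cases hqx : δ • s ≤ (γ' * α⁻¹) • x
    · have e2 : (γ' * α⁻¹) • β • s' = (γ' * α⁻¹ * β * γ'⁻¹) • γ' • s' := by
        rw [← mul_smul, ← mul_smul]; simp
      rw [e2] at h3' h5'
      refine ⟨γ, γ' * α⁻¹ * β * γ'⁻¹ * δ, ?_, hpp.trans h4', ?_⟩
      · rw [mul_smul]
        exact (h1.trans h3').trans (h2.smul _)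
      · rw [mul_smul]
        exact fun h6 => h5' ((sle.2 hlt.le).trans h6)
    · exact ⟨γ, δ, h, hpp.trans h4', hqx⟩
  · rintro ⟨α, β, h3, h4, h5⟩
    rw [← IN_smul (γ := γ * α⁻¹)]
    have e1 : (γ * α⁻¹) • α • s = γ • s := by rw [← mul_smul]; simp
    have h3' := h3.smul (γ * α⁻¹)
    have h4' := (sle (γ := γ * α⁻¹)).2 h4
    have h5' : ¬ (γ * α⁻¹) • β • s ≤ (γ * α⁻¹) • x := fun h6 => h5 (sle.1 h6)
    have e2 : (γ * α⁻¹) • β • s = (γ * α⁻¹ * β * γ⁻¹) • γ • s := by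
      rw [← mul_smul, ← mul_smul]; simp
    have e3 : (γ * δ⁻¹) • δ • s = γ • s := by rw [← mul_smul]; simp
    rw [e1] at h3' h4'
    rw [e2] at h3' h5'
    have h6 := (sle (γ := γ * δ⁻¹)).2 hlt.le
    have h7 := h2.smul (γ * δ⁻¹)
    rw [e3] at h6 h7
    refine ⟨γ * δ⁻¹ * γ', γ * α⁻¹ * β * γ⁻¹ * γ', ?_, ?_, ?_⟩
    · rw [mul_smul (γ * δ⁻¹) γ', mul_smul (γ * α⁻¹ * β * γ⁻¹) γ']
      exact (h7.trans h3').trans (h1.smul _)
    · rw [mul_smul]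
      exact h6.trans h4'
    · rw [mul_smul]
      exact fun h8 => h5' ((sle.2 hpp).trans h8)

theorem t_STAR : S_STAR := by
  intro Γ X _ _ _ _ u s s' t hs hs' h h' x
  obtain ⟨γ, δ, h1, h2, h3⟩ := h
  obtain ⟨γ', δ', h1', h2', h3'⟩ := h'
  rcases cmp Γ h2 h2' with h4 | h4
  · obtain ⟨h5, h6⟩ := star_aux hs' h1 h3 h2' h4 x
    exact ⟨h6, h5⟩
  · obtain ⟨h5, h6⟩ := star_aux hs h1' h3' h2 h4 x
    exact ⟨h5, h6⟩

end Pool.Agent.Y664.TF
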